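import Mathlib
import Pool.Agent.H230Z.DDMain

set_option autoImplicit false

namespace Pool.Agent.Results.MP_a74ba6_co.HalfBound

/-- For every `r ≥ 3`, every orientation `D` of a finite `r`-regular simple graph `G` has a
dominating set with at most half of the vertices. -/
theorem result (V : Type) [Fintype V] [DecidableEq V] (G : SimpleGraph V) [DecidableRel G.Adj]
    (r : ℕ) (hr : 3 ≤ r) (hG : G.IsRegularOfDegree r) (D : V → V → Prop)
    (h1 : ∀ u v, D u v → G.Adj u v) (h2 : ∀ u v, G.Adj u v → (D u v ↔ ¬ D v u)) :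
    ∃ S : Finset V, (∀ v, v ∉ S → ∃ u ∈ S, D u v) ∧ 2 * S.card ≤ Fintype.card V := by
  obtain ⟨S, a, b⟩ := Pool.Agent.H230Z.DD.main hr hG (A := D) ⟨h1, h2⟩
  exact ⟨S, fun v hv => (a v (Finset.mem_univ v)).resolve_left hv, b⟩

end Pool.Agent.Results.MP_a74ba6_co.HalfBound
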